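import Pool.Agent.Helper43.GH.Defs
import Pool.Agent.Helper98.MH.Onb

/-!
GH-C1. The double commutant theorem for star closed algebras of matrices.
-/

open Matrix Module

namespace GH

open MH

variable {n : Type*} [Fintype n] [DecidableEq n]

private lemma mul_single63 (a : Matrix n n ℂ) (s j : n) :
    a * single s j (1 : ℂ) = ∑ t, a t s • single t j (1 : ℂ) := by
  ext r k
  rw [Matrix.mul_apply, Matrix.sum_apply]
  have h1 : ∀ t, (a t s • single t j (1 : ℂ)) r k = if t = r then (if j = k then a t s else 0) else 0 := by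
    intro t
    rw [Matrix.smul_apply, single_apply]
    by_cases h : t = r <;> by_cases h' : j = k <;> simp [h, h']
  have h2 : ∀ t, a r t * single s j (1 : ℂ) t k = if s = t then (if j = k then a r t else 0) else 0 := by
    intro t
    rw [single_apply]
    by_cases h : s = t <;> by_cases h' : j = k <;> simp [h, h']
  rw [Finset.sum_congr rfl fun t _ => h1 t, Finset.sum_congr rfl fun t _ => h2 t, Finset.sum_ite_eq,
    Finset.sum_ite_eq']
  simp

/-- C1: double commutant -/
theorem dcom (A : Subalgebra ℂ (Matrix n n ℂ)) (st : ∀ x ∈ A, xᴴ ∈ A) {T : Matrix n n ℂ}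
    (hT : ∀ y : Matrix n n ℂ, (∀ x ∈ A, y * x = x * y) → T * y = y * T) : T ∈ A := by
  classical
  obtain ⟨u, hu, huu, hgen⟩ := exists_onb98 (Subalgebra.toSubmodule A)
  let P : Matrix n n ℂ →ₗ[ℂ] Matrix n n ℂ :=
    { toFun := fun m => ∑ i, ((u i)ᴴ * m).trace • u i
      map_add' := by
        intro x y
        rw [← Finset.sum_add_distrib]
        refine Finset.sum_congr rfl fun i _ => ?_
        rw [mul_add, trace_add, add_smul]
      map_smul' := by
        intro c x
        rw [RingHom.id_apply, Finset.smul_sum]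
        refine Finset.sum_congr rfl fun i _ => ?_
        rw [mul_smul_comm, trace_smul, smul_assoc] }
  have hP : ∀ m, P m = ∑ i, ((u i)ᴴ * m).trace • u i := fun m => rfl
  have hPm : ∀ m, P m ∈ A := by
    intro m
    rw [hP]
    exact A.sum_mem fun i _ => A.smul_mem (hu i) _
  have hPe : ∀ m ∈ A, P m = m := fun m hm => (hgen m hm).symm
  have hPt : ∀ w ∈ A, ∀ m, (wᴴ * P m).trace = (wᴴ * m).trace := by
    intro w hw m
    have e1 : (wᴴ * m).trace = ∑ i, ((u i)ᴴ * m).trace * (wᴴ * u i).trace := by
      conv_lhs => rw [hgen w hw]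
      rw [conjTranspose_sum, Finset.sum_mul, trace_sum]
      refine Finset.sum_congr rfl fun i _ => ?_
      rw [conjTranspose_smul, smul_mul_assoc, trace_smul, smul_eq_mul, mul_comm, ← trace_conjTranspose,
        conjTranspose_mul, conjTranspose_conjTranspose]
    rw [e1, hP, Finset.mul_sum, trace_sum]
    refine Finset.sum_congr rfl fun i _ => ?_
    rw [mul_smul_comm, trace_smul, smul_eq_mul]
  have hPa : ∀ a ∈ A, ∀ m, P (a * m) = a * P m := by
    intro a ha m
    rw [← sub_eq_zero]
    have hw : P (a * m) - a * P m ∈ A := A.sub_mem (hPm _) (A.mul_mem ha (hPm _))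
    apply eq_zero_of_trace
    set w := P (a * m) - a * P m with hwdef
    have e1 : (wᴴ * w).trace = 0 := by
      have e2 : (wᴴ * w).trace = (wᴴ * P (a * m)).trace - ((aᴴ * w)ᴴ * P m).trace := by
        rw [conjTranspose_mul, conjTranspose_conjTranspose]
        conv_lhs => rw [hwdef, mul_sub, trace_sub, ← hwdef]
        rw [mul_assoc]
      rw [e2, hPt w hw, hPt _ (A.mul_mem (st a ha) hw), conjTranspose_mul, conjTranspose_conjTranspose, mul_assoc,
        sub_self]
    rw [e1, Complex.zero_re]
  -- the blocks of `P`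
  let y : n → n → Matrix n n ℂ := fun j k => Matrix.of fun r s => P (single s j (1 : ℂ)) r k
  have hy : ∀ j k r s, y j k r s = P (single s j (1 : ℂ)) r k := fun j k r s => rfl
  have hyc : ∀ j k, ∀ a ∈ A, y j k * a = a * y j k := by
    intro j k a ha
    ext r s
    have e1 := congrFun (congrFun (hPa a ha (single s j (1 : ℂ))) r) k
    rw [mul_single63, map_sum, Matrix.sum_apply, Matrix.mul_apply] at e1
    rw [Matrix.mul_apply, Matrix.mul_apply]
    simp only [hy]
    rw [← e1]
    refine Finset.sum_congr rfl fun t _ => ?_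
    rw [map_smul, Matrix.smul_apply, smul_eq_mul, mul_comm]
  have hPy : ∀ m r k, P m r k = ∑ j, (y j k * m) r j := by
    intro m r k
    conv_lhs => rw [matrix_eq_sum_single m]
    rw [map_sum, Matrix.sum_apply]
    simp only [map_sum, Matrix.sum_apply, Matrix.mul_apply, hy]
    rw [Finset.sum_comm]
    refine Finset.sum_congr rfl fun j _ => Finset.sum_congr rfl fun s _ => ?_
    have e2 : single s j (m s j) = m s j • single s j (1 : ℂ) := by
      rw [smul_single, smul_eq_mul, mul_one]
    rw [e2, map_smul, Matrix.smul_apply, smul_eq_mul, mul_comm]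
  have hPT : P T = T := by
    ext r k
    rw [hPy]
    have e1 : ∀ j, (y j k * T) r j = ∑ t, T r t * y j k t j := by
      intro j
      rw [← hT (y j k) (hyc j k), Matrix.mul_apply]
    rw [Finset.sum_congr rfl fun j _ => e1 j, Finset.sum_comm]
    have e2 : ∀ t, ∑ j, T r t * y j k t j = T r t * (1 : Matrix n n ℂ) t k := by
      intro t
      rw [← Finset.mul_sum]
      congr 1
      have e3 := hPy 1 t k
      rw [hPe 1 A.one_mem] at e3
      rw [e3]
      simp
    rw [Finset.sum_congr rfl fun t _ => e2 t, ← Matrix.mul_apply, mul_one]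
  rw [← hPT]
  exact hPm T

end GH
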