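import Pool.Agent.Helper63.GH.TyQ

/-!
Project GH, blocks S1 and S2: the derived algebra of an algebra of full type is simple and perfect.
-/

set_option linter.unusedSectionVars false
set_option linter.unusedVariables false
set_option autoImplicit false

open Matrix Module

namespace GH

open MH

variable {n : Type*} [Fintype n] [DecidableEq n] {Q : Matrix n n ℂ}

private lemma smul_mem63 {N : Submodule ℂ (Matrix n n ℂ)} {c : ℂ} (hc : c ≠ 0) {z : Matrix n n ℂ} (h : c • z ∈ N) : z ∈ N :=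
  (Submodule.smul_mem_iff N hc).1 h

/-! ### alternating forms -/

private lemma sp_self63 (h : Sk63 Q (-1)) (a : n → ℂ) : ip63 Q a a = 0 := by
  have h1 := h.sym a a
  have h2 : (2 : ℂ) * ip63 Q a a = 0 := by linear_combination h1
  exact (mul_eq_zero.1 h2).resolve_left two_ne_zero

private lemma sp_dd63 (c v : n → ℂ) : wd63 Q (-1) c c *ᵥ v = (2 * ip63 Q c v) • c := by
  rw [wd_mulVec63]
  module

private lemma sp_step63 (h : Sk63 Q (-1)) (f a : n → ℂ) :
    wd63 Q (-1) f f * wd63 Q (-1) a a - wd63 Q (-1) a a * wd63 Q (-1) f f = (4 * ip63 Q f a) • wd63 Q (-1) a f := by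
  rw [wd_br63 (h.wd_mem f f), sp_dd63, wd_smul_left63, wd_smul_right63, h.swap a f, neg_neg, one_smul]
  module

private lemma sp_split63 (h : Sk63 Q (-1)) {P : (n → ℂ) → Prop} {a : n → ℂ} (ha : a ≠ 0)
    (h1 : ∀ f, ip63 Q f a ≠ 0 → P f) (h2 : ∀ f g, P f → P g → P (f - g)) (f : n → ℂ) : P f := by
  by_cases hf : ip63 Q f a = 0
  · obtain ⟨e, he⟩ := h.nondeg ha
    have h3 : P (f + e) := h1 _ (by rw [map_add, LinearMap.add_apply, hf, zero_add]; exact he)
    have h4 := h2 _ _ h3 (h1 e he)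
    rwa [add_sub_cancel_right] at h4
  · exact h1 f hf

private lemma wd_zero_left63 {ε : ℂ} (b : n → ℂ) : wd63 Q ε 0 b = 0 := by
  have := wd_smul_left63 (Q := Q) (ε := ε) 0 0 b
  rwa [zero_smul, zero_smul] at this

private lemma wd_zero_right63 {ε : ℂ} (b : n → ℂ) : wd63 Q ε b 0 = 0 := by
  have := wd_smul_right63 (Q := Q) (ε := ε) 0 b 0
  rwa [zero_smul, zero_smul] at this

private lemma wd_sub_left63 {ε : ℂ} (a a' b : n → ℂ) : wd63 Q ε (a - a') b = wd63 Q ε a b - wd63 Q ε a' b := by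
  have h1 : a - a' = a + (-1 : ℂ) • a' := by module
  rw [h1, wd_add_left63, wd_smul_left63]
  module

private lemma wd_sub_right63 {ε : ℂ} (a b b' : n → ℂ) : wd63 Q ε a (b - b') = wd63 Q ε a b - wd63 Q ε a b' := by
  have h1 : b - b' = b + (-1 : ℂ) • b' := by module
  rw [h1, wd_add_right63, wd_smul_right63]
  module

private lemma sp_perf63 (h : Sk63 Q (-1)) : DQ63 Q ≤ brk (DQ63 Q) := by
  intro x hx
  refine h.span ?_ hx
  intro a f
  by_cases ha : a = 0
  · rw [ha, wd_zero_left63]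
    exact Submodule.zero_mem _
  · refine sp_split63 h ha (P := fun f => wd63 Q (-1) a f ∈ brk (DQ63 Q)) ?_ ?_ f
    · intro f hf
      have h1 := brk_mem63 (h.wd_mem f f) (h.wd_mem a a)
      rw [sp_step63 h] at h1
      exact smul_mem63 (mul_ne_zero (by norm_num) hf) h1
    · intro f g hf hg
      rw [wd_sub_right63]
      exact Submodule.sub_mem _ hf hg

private lemma sp_simple63 (h : Sk63 Q (-1)) {N : Submodule ℂ (Matrix n n ℂ)} (hN : N ≤ DQ63 Q)
    (hi : ∀ x ∈ DQ63 Q, ∀ y ∈ N, x * y - y * x ∈ N) (h0 : N ≠ ⊥) : DQ63 Q ≤ N := by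
  obtain ⟨y, hy, hy0⟩ := Submodule.exists_mem_ne_zero_of_ne_bot h0
  have hyD := hN hy
  -- a vector
  have hv : ∃ a, ip63 Q a (y *ᵥ a) ≠ 0 := by
    by_contra hcon
    push Not at hcon
    apply hy0
    rw [ext_iff_mulVec]
    intro b
    rw [zero_mulVec]
    by_contra hb
    obtain ⟨a, ha⟩ := h.nondeg hb
    have h1 := hcon (a + b)
    rw [mulVec_add, map_add, map_add, LinearMap.add_apply, LinearMap.add_apply, hcon a, hcon b] at h1
    have h2 : ip63 Q b (y *ᵥ a) = ip63 Q a (y *ᵥ b) := by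
      rw [h.sym (y *ᵥ a) b, skew63 hyD]
      ring
    rw [h2] at h1
    apply ha
    have h3 : (2 : ℂ) * ip63 Q a (y *ᵥ b) = 0 := by linear_combination h1
    exact (mul_eq_zero.1 h3).resolve_left two_ne_zero
  obtain ⟨a, ha⟩ := hv
  have ha0 : a ≠ 0 := by
    intro hh
    apply ha
    rw [hh, mulVec_zero, map_zero]
  -- the element `wd a a`
  have hx : wd63 Q (-1) a a ∈ N := by
    have h1 := hi _ (h.wd_mem a a) _ (hi _ (h.wd_mem a a) y hy)
    have e : wd63 Q (-1) a a * (wd63 Q (-1) a a * y - y * wd63 Q (-1) a a) - (wd63 Q (-1) a a * y - y * wd63 Q (-1) a a) * wd63 Q (-1) a a =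
        (-4 * ip63 Q a (y *ᵥ a)) • wd63 Q (-1) a a := by
      rw [ext_iff_mulVec]
      intro v
      have e1 : wd63 Q (-1) a a * (wd63 Q (-1) a a * y - y * wd63 Q (-1) a a) -
          (wd63 Q (-1) a a * y - y * wd63 Q (-1) a a) * wd63 Q (-1) a a =
          wd63 Q (-1) a a * (wd63 Q (-1) a a * y) - wd63 Q (-1) a a * (y * wd63 Q (-1) a a) -
          wd63 Q (-1) a a * (y * wd63 Q (-1) a a) + y * (wd63 Q (-1) a a * wd63 Q (-1) a a) := by noncomm_ring
      rw [e1]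
      simp only [sub_mulVec, add_mulVec, ← mulVec_mulVec, smul_mulVec, sp_dd63, mulVec_smul,
        sp_self63 h a]
      module
    rw [e] at h1
    exact smul_mem63 (mul_ne_zero (by norm_num) ha) h1
  have hA : ∀ f, wd63 Q (-1) a f ∈ N := by
    intro f
    refine sp_split63 h ha0 (P := fun f => wd63 Q (-1) a f ∈ N) ?_ ?_ f
    · intro f hf
      have h1 := hi _ (h.wd_mem f f) _ hx
      rw [sp_step63 h] at h1
      exact smul_mem63 (mul_ne_zero (by norm_num) hf) h1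
    · intro f g hf hg
      rw [wd_sub_right63]
      exact Submodule.sub_mem _ hf hg
  intro x hx'
  refine h.span ?_ hx'
  intro c f
  refine sp_split63 h ha0 (P := fun c => wd63 Q (-1) c f ∈ N) ?_ ?_ c
  · intro c hc
    have h1 := absorb63 hi hA (h.wd_mem c c) f
    rw [sp_dd63, wd_smul_left63] at h1
    exact smul_mem63 (mul_ne_zero two_ne_zero hc) h1
  · intro c g hc hg
    rw [wd_sub_left63]
    exact Submodule.sub_mem _ hc hg

/-! ### symmetric forms -/

private lemma so_sym63 (h : Sk63 Q 1) (a b : n → ℂ) : ip63 Q b a = ip63 Q a b := by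
  rw [h.sym a b, one_mul]

private lemma so_mulVec63 (a b v : n → ℂ) : wd63 Q 1 a b *ᵥ v = ip63 Q b v • a - ip63 Q a v • b := by
  rw [wd_mulVec63, one_mul]

private lemma so_self63 (a : n → ℂ) : wd63 Q 1 a a = 0 := by
  rw [ext_iff_mulVec]
  intro v
  rw [so_mulVec63, sub_self, zero_mulVec]

private lemma so_swap63 (h : Sk63 Q 1) (a b : n → ℂ) : wd63 Q 1 b a = -wd63 Q 1 a b := by
  rw [h.swap a b, neg_smul, one_smul]

private lemma so_perp63 (h : Sk63 Q 1) (h5 : 5 ≤ Fintype.card n) (f c : n → ℂ) :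
    ∃ p, ip63 Q p f = 0 ∧ ip63 Q p c = 0 ∧ ip63 Q p p ≠ 0 := by
  by_contra hcon
  push Not at hcon
  have hnd : (ip63 Q).Nondegenerate := by
    unfold ip63
    rw [Matrix.nondegenerate_toBilin'_iff]
    exact Matrix.nondegenerate_of_det_ne_zero ((Matrix.isUnit_iff_isUnit_det _).1 h.un).ne_zero
  set W₀ : Submodule ℂ (n → ℂ) := Submodule.span ℂ ({f, c} : Set (n → ℂ)) with hW₀
  have hd0 : finrank ℂ W₀ ≤ 2 := by
    have h1 : (({f, c} : Finset (n → ℂ)) : Set (n → ℂ)) = {f, c} := by simp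
    have h2 := finrank_span_finset_le_card (R := ℂ) ({f, c} : Finset (n → ℂ))
    unfold Set.finrank at h2
    rw [h1] at h2
    exact h2.trans Finset.card_le_two
  have hd1 := LinearMap.BilinForm.finrank_orthogonal hnd W₀
  set W := (ip63 Q).orthogonal W₀ with hW
  have hmem : ∀ p ∈ W, ip63 Q p f = 0 ∧ ip63 Q p c = 0 := by
    intro p hp
    rw [hW, LinearMap.BilinForm.mem_orthogonal_iff] at hp
    constructor
    · rw [so_sym63 h]
      exact hp f (Submodule.subset_span (by simp))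
    · rw [so_sym63 h]
      exact hp c (Submodule.subset_span (by simp))
  have hWW : W ≤ (ip63 Q).orthogonal W := by
    intro p hp
    rw [LinearMap.BilinForm.mem_orthogonal_iff]
    intro q hq
    have h1 : ∀ r ∈ W, ip63 Q r r = 0 := fun r hr => hcon r (hmem r hr).1 (hmem r hr).2
    have h2 := h1 _ (W.add_mem hp hq)
    rw [map_add, map_add, LinearMap.add_apply, LinearMap.add_apply, h1 p hp, h1 q hq, so_sym63 h q p] at h2
    change ip63 Q q p = 0
    have h3 : (2 : ℂ) * ip63 Q q p = 0 := by linear_combination h2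
    exact (mul_eq_zero.1 h3).resolve_left two_ne_zero
  have hd2 := LinearMap.BilinForm.finrank_orthogonal hnd W
  have hd3 := Submodule.finrank_mono hWW
  rw [hd2, hd1] at hd3
  rw [Module.finrank_fintype_fun_eq_card] at hd3
  omega

private lemma so_perf63 (h : Sk63 Q 1) (h5 : 5 ≤ Fintype.card n) : DQ63 Q ≤ brk (DQ63 Q) := by
  intro x hx
  refine h.span ?_ hx
  intro f c
  obtain ⟨p, hf, hc, hp⟩ := so_perp63 h h5 f c
  have h1 := brk_mem63 (h.wd_mem p f) (h.wd_mem p c)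
  rw [wd_br63 (h.wd_mem p f), so_mulVec63, so_mulVec63, so_sym63 h p f, hf, hc, zero_smul, zero_smul, zero_sub, sub_zero,
    wd_smul_right63, so_self63, smul_zero, add_zero] at h1
  have e : wd63 Q 1 (-(ip63 Q p p • f)) c = (-ip63 Q p p) • wd63 Q 1 f c := by
    rw [← neg_smul, wd_smul_left63]
  rw [e] at h1
  exact smul_mem63 (neg_ne_zero.2 hp) h1

private lemma so_simple63 (h : Sk63 Q 1) (h5 : 5 ≤ Fintype.card n) {N : Submodule ℂ (Matrix n n ℂ)} (hN : N ≤ DQ63 Q)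
    (hi : ∀ x ∈ DQ63 Q, ∀ y ∈ N, x * y - y * x ∈ N) (h0 : N ≠ ⊥) : DQ63 Q ≤ N := by
  obtain ⟨y, hy, hy0⟩ := Submodule.exists_mem_ne_zero_of_ne_bot h0
  have hyD := hN hy
  have hyy : ∀ a, ip63 Q a (y *ᵥ a) = 0 := by
    intro a
    have h1 := skew63 hyD a a
    rw [so_sym63 h] at h1
    have h3 : (2 : ℂ) * ip63 Q a (y *ᵥ a) = 0 := by linear_combination h1
    exact (mul_eq_zero.1 h3).resolve_left two_ne_zero
  -- an eigenvector
  obtain ⟨lam, b, hb0, hb⟩ : ∃ (lam : ℂ) (b : n → ℂ), b ≠ 0 ∧ y *ᵥ b = lam • b := by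
    have : Nonempty n := Fintype.card_pos_iff.1 (by omega)
    obtain ⟨lam, hlam⟩ := Module.End.exists_eigenvalue (Matrix.toLin' y)
    obtain ⟨b, hb⟩ := hlam.exists_hasEigenvector
    refine ⟨lam, b, hb.2, ?_⟩
    have := hb.apply_eq_smul
    rwa [Matrix.toLin'_apply] at this
  have claim1 : ∀ a, wd63 Q 1 (y *ᵥ a + lam • a) b ∈ N := by
    intro a
    have h1 := hi _ (h.wd_mem a b) y hy
    have e : wd63 Q 1 (y *ᵥ a + lam • a) b = -(wd63 Q 1 a b * y - y * wd63 Q 1 a b) := by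
      rw [neg_sub, wd_br63 hyD, hb, wd_add_left63, wd_smul_left63, wd_smul_right63]
    rw [e]
    exact N.neg_mem h1
  obtain ⟨w, hw⟩ := h.nondeg hb0
  have claim2 : ∃ a, ∀ t : ℂ, y *ᵥ a + lam • a ≠ t • b := by
    by_contra hcon
    push Not at hcon
    have hlam : lam = 0 := by
      obtain ⟨p, hpb, -, hpp⟩ := so_perp63 h h5 b b
      obtain ⟨t, ht⟩ := hcon p
      have h1 := congrArg (ip63 Q p) ht
      rw [map_add, map_smul, map_smul, hyy, hpb, smul_eq_mul, smul_eq_mul, mul_zero, zero_add] at h1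
      exact (mul_eq_zero.1 h1).resolve_right hpp
    rw [hlam] at hcon
    simp only [zero_smul, add_zero] at hcon
    have hyw : y *ᵥ w = 0 := by
      obtain ⟨t, ht⟩ := hcon w
      have h1 := hyy w
      rw [ht, map_smul, smul_eq_mul] at h1
      rw [ht, (mul_eq_zero.1 h1).resolve_right hw, zero_smul]
    apply hy0
    rw [ext_iff_mulVec]
    intro u
    rw [zero_mulVec]
    obtain ⟨s, hs⟩ := hcon u
    have h1 := hyy (u + w)
    have h2 := hyy u
    rw [mulVec_add, hyw, add_zero, hs, map_smul, map_add, LinearMap.add_apply, smul_eq_mul] at h1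
    rw [hs, map_smul, smul_eq_mul] at h2
    have h3 : s * ip63 Q w b = 0 := by linear_combination h1 - h2
    rw [hs, (mul_eq_zero.1 h3).resolve_right hw, zero_smul]
  obtain ⟨a, ha⟩ := claim2
  set c := y *ᵥ a + lam • a with hc
  have hcb : wd63 Q 1 c b ∈ N := claim1 a
  have claim3 : ∃ q, ip63 Q q b = 0 ∧ ip63 Q q c ≠ 0 := by
    by_contra hcon
    push Not at hcon
    apply ha (ip63 Q w c / ip63 Q w b)
    by_contra hne
    obtain ⟨v, hv⟩ := h.nondeg (sub_ne_zero.2 hne)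
    apply hv
    have h1 := hcon (v - (ip63 Q v b / ip63 Q w b) • w) (by
      rw [map_sub, LinearMap.sub_apply, map_smul, LinearMap.smul_apply, smul_eq_mul, div_mul_cancel₀ _ hw, sub_self])
    rw [map_sub, LinearMap.sub_apply, map_smul, LinearMap.smul_apply, smul_eq_mul] at h1
    rw [map_sub, map_smul, smul_eq_mul]
    rw [← h1]
    ring
  obtain ⟨q, hqb, hqc⟩ := claim3
  obtain ⟨p, hpb, hpc, hpp⟩ := so_perp63 h h5 b c
  have claim4 : wd63 Q 1 p b ∈ N := by
    have h1 := hi _ (h.wd_mem p q) _ hcb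
    rw [wd_br63 (h.wd_mem p q), so_mulVec63, so_mulVec63, hpc, hpb, hqb, zero_smul, zero_smul, sub_zero, sub_zero,
      wd_smul_left63, wd_zero_right63, add_zero] at h1
    exact smul_mem63 hqc h1
  have claim5 : ∀ f, wd63 Q 1 b f ∈ N := by
    intro f
    have h1 := hi _ (h.wd_mem p f) _ claim4
    rw [wd_br63 (h.wd_mem p f), so_mulVec63, so_mulVec63, hpb, zero_smul, sub_zero, wd_smul_right63, so_self63, smul_zero,
      add_zero, wd_sub_left63, wd_smul_left63, wd_smul_left63] at h1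
    have h2 := N.sub_mem (N.smul_mem (ip63 Q f p) claim4) h1
    rw [sub_sub_cancel] at h2
    have h3 := smul_mem63 hpp h2
    rw [so_swap63 h]
    exact N.neg_mem h3
  -- from one absorbing vector to its orthogonal complement
  have claim6 : ∀ a : n → ℂ, a ≠ 0 → (∀ f, wd63 Q 1 a f ∈ N) → ∀ c, ip63 Q c a = 0 → ∀ f, wd63 Q 1 c f ∈ N := by
    intro a ha hA c hc f
    obtain ⟨d, hd⟩ := h.nondeg ha
    have h1 := absorb63 hi hA (h.wd_mem c d) f
    rw [so_mulVec63, hc, zero_smul, sub_zero, wd_smul_left63] at h1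
    exact smul_mem63 hd h1
  intro x hx
  refine h.span ?_ hx
  intro g f
  obtain ⟨r, hrb, hrg, hrr⟩ := so_perp63 h h5 b g
  have hr0 : r ≠ 0 := by
    intro hh
    apply hrr
    rw [hh, map_zero]
  refine claim6 r hr0 (claim6 b hb0 claim5 r hrb) g ?_ f
  rw [so_sym63 h]
  exact hrg

/-! ### both cases -/

private lemma sk_of63 (hQ : Qᵀ = Q ∨ Qᵀ = -Q) (hu : IsUnit Q) : Sk63 Q 1 ∨ Sk63 Q (-1) := by
  rcases hQ with h | h
  · exact Or.inl ⟨by rw [h, one_smul], by norm_num, hu⟩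
  · exact Or.inr ⟨by rw [h, neg_smul, one_smul], by norm_num, hu⟩

private lemma brk_Q63 {L : Submodule ℂ (Matrix n n ℂ)} (h5 : 5 ≤ Fintype.card n) (hQ : Qᵀ = Q ∨ Qᵀ = -Q) (hu : IsUnit Q)
    (h1 : ∀ x, xᵀ * Q + Q * x = 0 → x ∈ L) (h2 : ∀ x ∈ L, ∃ c : ℂ, xᵀ * Q + Q * x = c • Q) : brk L = DQ63 Q := by
  apply le_antisymm
  · refine brk_le63 ?_
    intro x hx y hy
    obtain ⟨c, hc⟩ := h2 x hx
    obtain ⟨d, hd⟩ := h2 y hy
    rw [mem_DQ63, transpose_sub, transpose_mul, transpose_mul]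
    have hc' : xᵀ * Q = c • Q - Q * x := by rw [← hc, add_sub_cancel_right]
    have hd' : yᵀ * Q = d • Q - Q * y := by rw [← hd, add_sub_cancel_right]
    have e : (yᵀ * xᵀ - xᵀ * yᵀ) * Q + Q * (x * y - y * x) =
        yᵀ * (xᵀ * Q) - xᵀ * (yᵀ * Q) + (Q * x * y - Q * y * x) := by noncomm_ring
    rw [e, hc', hd', mul_sub, mul_sub, mul_smul_comm, mul_smul_comm, ← mul_assoc, ← mul_assoc, hc', hd', sub_mul, sub_mul,
      smul_mul_assoc, smul_mul_assoc, smul_sub, smul_sub, smul_smul, smul_smul, mul_comm d c]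
    abel
  · have h3 : DQ63 Q ≤ L := fun x hx => h1 x hx
    refine le_trans ?_ (brk_mono63 h3)
    rcases sk_of63 hQ hu with h | h
    · exact so_perf63 h h5
    · exact sp_perf63 h

private lemma brk_sl63 {L : Submodule ℂ (Matrix n n ℂ)} (h : ∀ x : Matrix n n ℂ, x.trace = 0 → x ∈ L) (x : Matrix n n ℂ) :
    x ∈ brk L ↔ x.trace = 0 := by
  constructor
  · intro hx
    have h1 : brk L ≤ LinearMap.ker (Matrix.traceLinearMap n ℂ ℂ) := by
      refine brk_le63 ?_
      intro x hx y hy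
      rw [LinearMap.mem_ker, Matrix.traceLinearMap_apply, trace_sub, trace_mul_comm, sub_self]
    have h2 := h1 hx
    rwa [LinearMap.mem_ker, Matrix.traceLinearMap_apply] at h2
  · exact sl_perf63 h

/-- S1: simplicity -/
theorem simple_ty {L : Submodule ℂ (Matrix n n ℂ)} (h : TyF L) (h2 : 2 ≤ Fintype.card n) {N : Submodule ℂ (Matrix n n ℂ)}
    (hN : N ≤ brk L) (hi : ∀ x ∈ brk L, ∀ y ∈ N, x * y - y * x ∈ N) (h0 : N ≠ ⊥) : N = brk L := by
  refine le_antisymm hN ?_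
  have hsl : (∀ x : Matrix n n ℂ, x.trace = 0 → x ∈ L) → brk L ≤ N := by
    intro hs x hx
    refine sl_simple63 (fun y hy => (brk_sl63 hs y).1 (hN hy)) (fun z hz y hy => hi z ((brk_sl63 hs z).2 hz) y hy) h0 ?_
    exact (brk_sl63 hs x).1 hx
  obtain ⟨hty, h5⟩ := h
  rcases h5 with h5 | h5
  · exact hsl h5
  rcases hty with hty | ⟨Q, hQ, hu, h3, h4⟩
  · exact hsl hty
  · have hb := brk_Q63 h5 hQ hu h3 h4
    rw [hb] at hN hi ⊢
    rcases sk_of63 hQ hu with h | h
    · exact so_simple63 h h5 hN hi h0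
    · exact sp_simple63 h hN hi h0

/-- S2: perfect, and the description of the derived algebra -/
theorem brk_ty {L : Submodule ℂ (Matrix n n ℂ)} (h : TyF L) (h2 : 2 ≤ Fintype.card n) : brk (brk L) = brk L ∧
    ((∀ x : Matrix n n ℂ, x ∈ brk L ↔ x.trace = 0) ∨ ∃ Q : Matrix n n ℂ, (Qᵀ = Q ∨ Qᵀ = -Q) ∧ IsUnit Q ∧
      (∀ x ∈ L, ∃ c : ℂ, xᵀ * Q + Q * x = c • Q) ∧ ∀ x : Matrix n n ℂ, x ∈ brk L ↔ xᵀ * Q + Q * x = 0) := by
  have hsl : (∀ x : Matrix n n ℂ, x.trace = 0 → x ∈ L) → brk (brk L) = brk L ∧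
    ((∀ x : Matrix n n ℂ, x ∈ brk L ↔ x.trace = 0) ∨ ∃ Q : Matrix n n ℂ, (Qᵀ = Q ∨ Qᵀ = -Q) ∧ IsUnit Q ∧
      (∀ x ∈ L, ∃ c : ℂ, xᵀ * Q + Q * x = c • Q) ∧ ∀ x : Matrix n n ℂ, x ∈ brk L ↔ xᵀ * Q + Q * x = 0) := by
    intro hs
    refine ⟨?_, Or.inl (brk_sl63 hs)⟩
    ext x
    rw [brk_sl63 (L := brk L) (fun z hz => (brk_sl63 hs z).2 hz), brk_sl63 hs]
  obtain ⟨hty, h5⟩ := h
  rcases h5 with h5 | h5
  · exact hsl h5
  rcases hty with hty | ⟨Q, hQ, hu, h3, h4⟩
  · exact hsl hty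
  · have hb := brk_Q63 h5 hQ hu h3 h4
    refine ⟨?_, Or.inr ⟨Q, hQ, hu, h4, ?_⟩⟩
    · rw [hb]
      exact brk_Q63 h5 hQ hu (fun x hx => hx) (fun x hx => ⟨0, by rw [zero_smul]; exact hx⟩)
    · intro x
      rw [hb]
      exact Iff.rfl

end GH
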