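import Pool.Agent.Helper63.GH.TySl

/-!
Project GH, block S1/S2, the case of a form.
-/

set_option linter.unusedSectionVars false
set_option linter.unusedVariables false
set_option autoImplicit false

open Matrix Module

namespace GH

open MH

variable {n : Type*} [Fintype n] [DecidableEq n]

/-- a nondegenerate form with the sign `ε` -/
structure Sk63 (Q : Matrix n n ℂ) (ε : ℂ) : Prop where
  sy : Qᵀ = ε • Q
  ee : ε * ε = 1
  un : IsUnit Q

/-- the skew matrices -/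
def DQ63 (Q : Matrix n n ℂ) : Submodule ℂ (Matrix n n ℂ) where
  carrier := {x | xᵀ * Q + Q * x = 0}
  add_mem' := by
    intro a b ha hb
    change (a + b)ᵀ * Q + Q * (a + b) = 0
    have ha' : aᵀ * Q + Q * a = 0 := ha
    have hb' : bᵀ * Q + Q * b = 0 := hb
    have e : (a + b)ᵀ * Q + Q * (a + b) = (aᵀ * Q + Q * a) + (bᵀ * Q + Q * b) := by
      rw [transpose_add]
      noncomm_ring
    rw [e, ha', hb', add_zero]
  zero_mem' := by
    change (0 : Matrix n n ℂ)ᵀ * Q + Q * 0 = 0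
    simp
  smul_mem' := by
    intro c a ha
    change (c • a)ᵀ * Q + Q * (c • a) = 0
    have ha' : aᵀ * Q + Q * a = 0 := ha
    rw [transpose_smul, smul_mul_assoc, mul_smul_comm, ← smul_add, ha', smul_zero]

theorem mem_DQ63 {Q x : Matrix n n ℂ} : x ∈ DQ63 Q ↔ xᵀ * Q + Q * x = 0 := Iff.rfl

/-- the form -/
noncomputable def ip63 (Q : Matrix n n ℂ) : LinearMap.BilinForm ℂ (n → ℂ) := Matrix.toBilin' Q

theorem ip_apply63 (Q : Matrix n n ℂ) (a b : n → ℂ) : ip63 Q a b = a ⬝ᵥ (Q *ᵥ b) := Matrix.toBilin'_apply' Q a b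

/-- the elementary skew matrices -/
def wd63 (Q : Matrix n n ℂ) (ε : ℂ) (a b : n → ℂ) : Matrix n n ℂ := vecMulVec a (b ᵥ* Q) - ε • vecMulVec b (a ᵥ* Q)

theorem wd_mulVec63 (Q : Matrix n n ℂ) (ε : ℂ) (a b v : n → ℂ) :
    wd63 Q ε a b *ᵥ v = ip63 Q b v • a - (ε * ip63 Q a v) • b := by
  unfold wd63
  rw [sub_mulVec, smul_mulVec, vecMulVec_mulVec, vecMulVec_mulVec, ip_apply63, ip_apply63, dotProduct_mulVec,
    dotProduct_mulVec, op_smul_eq_smul, op_smul_eq_smul, smul_smul]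

section form
variable {Q : Matrix n n ℂ} {ε : ℂ}

theorem Sk63.sym (h : Sk63 Q ε) (a b : n → ℂ) : ip63 Q b a = ε * ip63 Q a b := by
  rw [ip_apply63, ip_apply63, dotProduct_mulVec, ← mulVec_transpose, h.sy, smul_mulVec, smul_dotProduct, smul_eq_mul,
    dotProduct_comm]

theorem skew63 {y : Matrix n n ℂ} (hy : y ∈ DQ63 Q) (a b : n → ℂ) : ip63 Q (y *ᵥ a) b = -ip63 Q a (y *ᵥ b) := by
  have h1 : yᵀ * Q = -(Q * y) := eq_neg_of_add_eq_zero_left hy
  rw [ip_apply63, ip_apply63, dotProduct_comm, dotProduct_mulVec, ← mulVec_transpose, mulVec_mulVec, h1, neg_mulVec,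
    neg_dotProduct, mulVec_mulVec, dotProduct_comm]

theorem Sk63.nondeg (h : Sk63 Q ε) {a : n → ℂ} (ha : a ≠ 0) : ∃ d, ip63 Q d a ≠ 0 := by
  by_contra hcon
  push Not at hcon
  apply ha
  have h1 : Q *ᵥ a = 0 := by
    funext i
    have := hcon (Pi.single i 1)
    rw [ip_apply63, single_dotProduct, one_mul] at this
    exact this
  obtain ⟨u, hu⟩ := h.un
  have h2 : (↑u⁻¹ : Matrix n n ℂ) *ᵥ (Q *ᵥ a) = a := by
    rw [mulVec_mulVec, ← hu, Units.inv_mul, one_mulVec]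
  rw [← h2, h1, mulVec_zero]

theorem Sk63.wd_mem (h : Sk63 Q ε) (a b : n → ℂ) : wd63 Q ε a b ∈ DQ63 Q := by
  rw [mem_DQ63]
  have hq : ∀ c : n → ℂ, Q *ᵥ c = ε • (c ᵥ* Q) := by
    intro c
    rw [← mulVec_transpose, h.sy, smul_mulVec, smul_smul, h.ee, one_smul]
  unfold wd63
  rw [transpose_sub, transpose_smul, transpose_vecMulVec, transpose_vecMulVec, sub_mul, smul_mul_assoc, vecMulVec_mul,
    vecMulVec_mul, mul_sub, mul_smul_comm, mul_vecMulVec, mul_vecMulVec, hq, hq, smul_vecMulVec, smul_vecMulVec, smul_smul,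
    h.ee, one_smul]
  abel

theorem wd_br63 {y : Matrix n n ℂ} (hy : y ∈ DQ63 Q) (a b : n → ℂ) :
    y * wd63 Q ε a b - wd63 Q ε a b * y = wd63 Q ε (y *ᵥ a) b + wd63 Q ε a (y *ᵥ b) := by
  rw [ext_iff_mulVec]
  intro v
  rw [sub_mulVec, add_mulVec, ← mulVec_mulVec, ← mulVec_mulVec, wd_mulVec63, wd_mulVec63, wd_mulVec63, wd_mulVec63,
    mulVec_sub, mulVec_smul, mulVec_smul, skew63 hy, skew63 hy]
  module

theorem wd_add_left63 (a a' b : n → ℂ) : wd63 Q ε (a + a') b = wd63 Q ε a b + wd63 Q ε a' b := by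
  rw [ext_iff_mulVec]
  intro v
  rw [add_mulVec, wd_mulVec63, wd_mulVec63, wd_mulVec63, map_add, LinearMap.add_apply]
  module

theorem wd_smul_left63 (c : ℂ) (a b : n → ℂ) : wd63 Q ε (c • a) b = c • wd63 Q ε a b := by
  rw [ext_iff_mulVec]
  intro v
  rw [smul_mulVec, wd_mulVec63, wd_mulVec63, map_smul, LinearMap.smul_apply, smul_eq_mul]
  module

theorem wd_add_right63 (a b b' : n → ℂ) : wd63 Q ε a (b + b') = wd63 Q ε a b + wd63 Q ε a b' := by
  rw [ext_iff_mulVec]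
  intro v
  rw [add_mulVec, wd_mulVec63, wd_mulVec63, wd_mulVec63, map_add, LinearMap.add_apply]
  module

theorem wd_smul_right63 (c : ℂ) (a b : n → ℂ) : wd63 Q ε a (c • b) = c • wd63 Q ε a b := by
  rw [ext_iff_mulVec]
  intro v
  rw [smul_mulVec, wd_mulVec63, wd_mulVec63, map_smul, LinearMap.smul_apply, smul_eq_mul]
  module

theorem Sk63.swap (h : Sk63 Q ε) (a b : n → ℂ) : wd63 Q ε b a = (-ε) • wd63 Q ε a b := by
  rw [ext_iff_mulVec]
  intro v
  rw [smul_mulVec, wd_mulVec63, wd_mulVec63, smul_sub, smul_smul, smul_smul]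
  have e : -ε * (ε * ip63 Q a v) = -ip63 Q a v := by
    rw [neg_mul, ← mul_assoc, h.ee, one_mul]
  rw [e]
  module

theorem Sk63.span (h : Sk63 Q ε) {N : Submodule ℂ (Matrix n n ℂ)} (hN : ∀ a b, wd63 Q ε a b ∈ N) {x : Matrix n n ℂ}
    (hx : x ∈ DQ63 Q) : x ∈ N := by
  obtain ⟨u, hu⟩ := h.un
  set R : Matrix n n ℂ := (↑u⁻¹ : Matrix n n ℂ) with hR
  have hRQ : R * Q = 1 := by rw [hR, ← hu, Units.inv_mul]
  have hQR : Q * R = 1 := by rw [hR, ← hu, Units.mul_inv]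
  set z : Matrix n n ℂ := x * R with hz
  have hzQ : z * Q = x := by rw [hz, mul_assoc, hRQ, mul_one]
  have hRt : Rᵀ = ε • R := by
    have h1 : Rᵀ * Qᵀ = 1 := by rw [← transpose_mul, hQR, transpose_one]
    rw [h.sy, mul_smul_comm] at h1
    have h2 : ε • (Rᵀ * Q) * R = R := by rw [h1, one_mul]
    rw [smul_mul_assoc, mul_assoc, hQR, mul_one] at h2
    rw [← h2, smul_smul, h.ee, one_smul]
    have h3 : ε • Rᵀ = R := h2
    rw [h2]
  have hxt : xᵀ = -(Q * x * R) := by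
    have h1 : xᵀ * Q = -(Q * x) := eq_neg_of_add_eq_zero_left hx
    have h2 : xᵀ * Q * R = -(Q * x) * R := by rw [h1]
    rw [mul_assoc, hQR, mul_one, neg_mul] at h2
    exact h2
  have hzt : zᵀ = (-ε) • z := by
    rw [hz, transpose_mul, hRt, hxt, smul_mul_assoc, mul_neg, ← mul_assoc, ← mul_assoc, hRQ, one_mul, smul_neg, neg_smul]
  have hzz : ∀ i j, z j i = (-ε) * z i j := by
    intro i j
    have := congrFun (congrFun hzt i) j
    rw [transpose_apply, Matrix.smul_apply, smul_eq_mul] at this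
    exact this
  have e1 : ∑ i, ∑ j, z i j • vecMulVec (Pi.single i (1 : ℂ)) ((Pi.single j (1 : ℂ)) ᵥ* Q) = x := by
    rw [← hzQ]
    conv_rhs => rw [matrix_eq_sum_single z]
    rw [Finset.sum_mul]
    refine Finset.sum_congr rfl fun i _ => ?_
    rw [Finset.sum_mul]
    refine Finset.sum_congr rfl fun j _ => ?_
    rw [← vecMulVec_mul, ← single_eq_single_vecMulVec_single, ← smul_mul_assoc, smul_single, smul_eq_mul, mul_one]
  have e2 : ∑ i, ∑ j, z i j • wd63 Q ε (Pi.single i (1 : ℂ)) (Pi.single j (1 : ℂ)) = x + x := by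
    have e3 : ∑ i, ∑ j, z i j • (ε • vecMulVec (Pi.single j (1 : ℂ)) ((Pi.single i (1 : ℂ)) ᵥ* Q)) = -x := by
      rw [Finset.sum_comm]
      rw [← e1, ← Finset.sum_neg_distrib]
      refine Finset.sum_congr rfl fun i _ => ?_
      rw [← Finset.sum_neg_distrib]
      refine Finset.sum_congr rfl fun j _ => ?_
      rw [hzz i j, smul_smul]
      have : -ε * z i j * ε = -z i j := by
        have h4 := h.ee
        linear_combination (-z i j) * h4
      rw [this, neg_smul]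
    unfold wd63
    simp only [smul_sub, Finset.sum_sub_distrib]
    rw [e1, e3, sub_neg_eq_add]
  have e4 : x + x = (2 : ℂ) • x := by module
  have h5 : (2 : ℂ) • x ∈ N := by
    rw [← e4, ← e2]
    exact N.sum_mem fun i _ => N.sum_mem fun j _ => N.smul_mem _ (hN _ _)
  exact (Submodule.smul_mem_iff _ two_ne_zero).1 h5

/-- absorbing vectors -/
theorem absorb63 {N : Submodule ℂ (Matrix n n ℂ)} (hi : ∀ x ∈ DQ63 Q, ∀ y ∈ N, x * y - y * x ∈ N) {a : n → ℂ}
    (ha : ∀ f, wd63 Q ε a f ∈ N) {y : Matrix n n ℂ} (hy : y ∈ DQ63 Q) (f : n → ℂ) : wd63 Q ε (y *ᵥ a) f ∈ N := by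
  have h1 := hi y hy _ (ha f)
  rw [wd_br63 hy] at h1
  have h2 := N.sub_mem h1 (ha (y *ᵥ f))
  rwa [add_sub_cancel_right] at h2

end form

end GH
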