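import Pool.Agent.Helper43.GH.Defs2

/-!
Project GH, block S1/S2, the special linear case.
-/

set_option linter.unusedSectionVars false
set_option linter.unusedVariables false
set_option autoImplicit false

open Matrix Module

namespace GH

open MH

variable {n : Type*} [Fintype n] [DecidableEq n]

/-! ### general -/

theorem brk_mem63 {L : Submodule ℂ (Matrix n n ℂ)} {x y : Matrix n n ℂ} (hx : x ∈ L) (hy : y ∈ L) :
    x * y - y * x ∈ brk L := Submodule.subset_span ⟨x, hx, y, hy, rfl⟩

theorem brk_le63 {L N : Submodule ℂ (Matrix n n ℂ)} (h : ∀ x ∈ L, ∀ y ∈ L, x * y - y * x ∈ N) : brk L ≤ N := by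
  refine Submodule.span_le.2 ?_
  rintro _ ⟨x, hx, y, hy, rfl⟩
  exact h x hx y hy

theorem brk_mono63 {L L' : Submodule ℂ (Matrix n n ℂ)} (h : L ≤ L') : brk L ≤ brk L' :=
  brk_le63 fun x hx y hy => brk_mem63 (h hx) (h hy)

/-! ### matrices of trace zero -/

theorem sl_span63 {N : Submodule ℂ (Matrix n n ℂ)} (h1 : ∀ i j : n, i ≠ j → single i j (1 : ℂ) ∈ N)
    (h2 : ∀ i j : n, i ≠ j → single i i (1 : ℂ) - single j j 1 ∈ N) {x : Matrix n n ℂ} (hx : x.trace = 0) : x ∈ N := by
  rcases isEmpty_or_nonempty n with h | ⟨⟨i0⟩⟩
  · have : x = 0 := by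
      ext i
      exact (h.false i).elim
    rw [this]
    exact N.zero_mem
  · have e : x = ∑ i, ∑ j, x i j • (single i j (1 : ℂ) - if i = j then single i0 i0 (1 : ℂ) else 0) := by
      simp only [smul_sub, Finset.sum_sub_distrib]
      have e1 : ∑ i, ∑ j, x i j • single i j (1 : ℂ) = x := by
        conv_rhs => rw [matrix_eq_sum_single x]
        refine Finset.sum_congr rfl fun i _ => Finset.sum_congr rfl fun j _ => ?_
        rw [smul_single, smul_eq_mul, mul_one]
      have e2 : ∑ i, ∑ j, x i j • (if i = j then single i0 i0 (1 : ℂ) else 0) = 0 := by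
        have h3 : ∀ i, ∑ j, x i j • (if i = j then single i0 i0 (1 : ℂ) else 0) = x i i • single i0 i0 (1 : ℂ) := by
          intro i
          rw [Finset.sum_eq_single i]
          · rw [if_pos rfl]
          · intro j _ hj
            rw [if_neg (Ne.symm hj), smul_zero]
          · intro h'
            exact absurd (Finset.mem_univ i) h'
        simp_rw [h3]
        rw [← Finset.sum_smul]
        have h4 : ∑ i, x i i = 0 := hx
        rw [h4, zero_smul]
      rw [e1, e2, sub_zero]
    rw [e]
    refine N.sum_mem fun i _ => N.sum_mem fun j _ => N.smul_mem _ ?_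
    by_cases hij : i = j
    · subst hij
      rw [if_pos rfl]
      by_cases hi : i = i0
      · rw [hi, sub_self]
        exact N.zero_mem
      · exact h2 i i0 hi
    · rw [if_neg hij, sub_zero]
      exact h1 i j hij

private lemma tr_off63 {i j : n} (h : i ≠ j) : (single i j (1 : ℂ)).trace = 0 := trace_single_eq_of_ne _ _ _ h

private lemma tr_diag63 (i j : n) : (single i i (1 : ℂ) - single j j 1).trace = 0 := by
  rw [trace_sub, trace_single_eq_same, trace_single_eq_same, sub_self]

theorem sl_perf63 {L : Submodule ℂ (Matrix n n ℂ)} (h : ∀ x : Matrix n n ℂ, x.trace = 0 → x ∈ L) {x : Matrix n n ℂ}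
    (hx : x.trace = 0) : x ∈ brk L := by
  refine sl_span63 ?_ ?_ hx
  · intro i j hij
    have h1 := brk_mem63 (h _ (tr_diag63 i j)) (h _ (tr_off63 hij))
    have e : (single i i (1 : ℂ) - single j j 1) * single i j (1 : ℂ) - single i j (1 : ℂ) * (single i i (1 : ℂ) - single j j 1) =
        (2 : ℂ) • single i j (1 : ℂ) := by
      rw [sub_mul, mul_sub, single_mul_single_same, single_mul_single_same, single_mul_single_of_ne _ _ _ _ hij.symm,
        single_mul_single_of_ne _ _ _ _ hij.symm]
      simp only [mul_one]
      module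
    rw [e] at h1
    exact (Submodule.smul_mem_iff _ two_ne_zero).1 h1
  · intro i j hij
    have h1 := brk_mem63 (h _ (tr_off63 hij)) (h _ (tr_off63 hij.symm))
    rw [single_mul_single_same, single_mul_single_same, mul_one] at h1
    exact h1

theorem sl_simple63 {N : Submodule ℂ (Matrix n n ℂ)} (hN : ∀ y ∈ N, y.trace = 0)
    (hi : ∀ x : Matrix n n ℂ, x.trace = 0 → ∀ y ∈ N, x * y - y * x ∈ N) (h0 : N ≠ ⊥) {x : Matrix n n ℂ}
    (hx : x.trace = 0) : x ∈ N := by
  obtain ⟨y, hy, hy0⟩ := Submodule.exists_mem_ne_zero_of_ne_bot h0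
  -- the double bracket
  have dbl : ∀ x : Matrix n n ℂ, x.trace = 0 → x * x = 0 → ∀ y ∈ N, x * y * x ∈ N := by
    intro x hx hxx y hy
    have h1 := hi x hx _ (hi x hx y hy)
    have e : x * (x * y - y * x) - (x * y - y * x) * x = (-2 : ℂ) • (x * y * x) := by
      have e1 : x * (x * y - y * x) - (x * y - y * x) * x = x * x * y - x * y * x - x * y * x + y * (x * x) := by
        noncomm_ring
      rw [e1, hxx]
      simp only [zero_mul, mul_zero]
      module
    rw [e] at h1
    exact (Submodule.smul_mem_iff _ (by norm_num)).1 h1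
  have sq : ∀ i j : n, i ≠ j → single i j (1 : ℂ) * single i j (1 : ℂ) = 0 := fun i j hij =>
    single_mul_single_of_ne _ _ _ _ hij.symm _
  -- some matrix unit
  have step1 : ∃ i j : n, i ≠ j ∧ single i j (1 : ℂ) ∈ N := by
    by_cases hd : ∃ i j : n, i ≠ j ∧ y j i ≠ 0
    · obtain ⟨i, j, hij, hyj⟩ := hd
      refine ⟨i, j, hij, ?_⟩
      have h1 := dbl _ (tr_off63 hij) (sq i j hij) y hy
      rw [single_mul_mul_single, one_mul, mul_one] at h1
      have e : single i j (y j i) = y j i • single i j (1 : ℂ) := by rw [smul_single, smul_eq_mul, mul_one]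
      rw [e] at h1
      exact (Submodule.smul_mem_iff _ hyj).1 h1
    · push Not at hd
      have hne : ∃ i j : n, i ≠ j ∧ y i i ≠ y j j := by
        by_contra hcon
        push Not at hcon
        apply hy0
        rcases isEmpty_or_nonempty n with h | ⟨⟨i0⟩⟩
        · ext i
          exact (h.false i).elim
        · have h1 : ∀ i, y i i = y i0 i0 := by
            intro i
            by_cases hh : i = i0
            · rw [hh]
            · exact hcon i i0 hh
          have h2 : y.trace = Fintype.card n • y i0 i0 := by
            unfold trace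
            simp only [diag_apply, h1, Finset.sum_const, Finset.card_univ]
          rw [hN y hy] at h2
          have h3 : y i0 i0 = 0 := by
            rw [nsmul_eq_mul] at h2
            rcases mul_eq_zero.1 h2.symm with h4 | h4
            · exfalso
              have : Fintype.card n = 0 := by exact_mod_cast h4
              exact (Fintype.card_pos_iff.2 ⟨i0⟩).ne' this
            · exact h4
          ext i j
          by_cases hij : i = j
          · subst hij
            rw [h1, h3]
            rfl
          · exact hd j i (Ne.symm hij)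
      obtain ⟨i, j, hij, hyij⟩ := hne
      refine ⟨i, j, hij, ?_⟩
      have h1 := hi _ (tr_off63 hij) y hy
      have e : single i j (1 : ℂ) * y - y * single i j (1 : ℂ) = (y j j - y i i) • single i j (1 : ℂ) := by
        ext a b
        rw [Matrix.sub_apply, Matrix.smul_apply, smul_eq_mul]
        by_cases ha : a = i
        · subst ha
          by_cases hb : b = j
          · subst hb
            simp
          · rw [single_mul_apply_same, mul_single_apply_of_ne _ _ _ _ _ hb, hd b j hb, single_apply_of_ne _ _ _ _ _ (by tauto)]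
            simp
        · rw [single_mul_apply_of_ne _ _ _ _ _ ha]
          by_cases hb : b = j
          · subst hb
            rw [mul_single_apply_same, hd i a (Ne.symm ha), single_apply_of_ne _ _ _ _ _ (by tauto)]
            simp
          · rw [mul_single_apply_of_ne _ _ _ _ _ hb, single_apply_of_ne _ _ _ _ _ (by tauto)]
            simp
      rw [e] at h1
      exact (Submodule.smul_mem_iff _ (sub_ne_zero.2 (Ne.symm hyij))).1 h1
  have sA : ∀ i j k : n, k ≠ j → single i j (1 : ℂ) ∈ N → single k j (1 : ℂ) ∈ N := by
    intro i j k hkj h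
    by_cases hki : k = i
    · rw [hki]
      exact h
    · have h1 := hi _ (tr_off63 hki) _ h
      rw [single_mul_single_same, single_mul_single_of_ne _ _ _ _ hkj.symm, mul_one, sub_zero] at h1
      exact h1
  have sB : ∀ i j l : n, l ≠ i → single i j (1 : ℂ) ∈ N → single i l (1 : ℂ) ∈ N := by
    intro i j l hli h
    by_cases hlj : l = j
    · rw [hlj]
      exact h
    · have h1 := hi _ (tr_off63 (Ne.symm hlj)) _ h
      rw [single_mul_single_same, single_mul_single_of_ne _ _ _ _ hli, mul_one, zero_sub] at h1
      exact N.neg_mem_iff.1 h1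
  have sC : ∀ i j : n, i ≠ j → single i j (1 : ℂ) ∈ N → single j i (1 : ℂ) ∈ N := by
    intro i j hij h
    have h1 := dbl _ (tr_off63 hij.symm) (sq j i hij.symm) _ h
    rw [single_mul_single_same, single_mul_single_same, mul_one, mul_one] at h1
    exact h1
  obtain ⟨i, j, hij, hE⟩ := step1
  have all : ∀ k l : n, k ≠ l → single k l (1 : ℂ) ∈ N := by
    intro k l hkl
    by_cases hli : l = i
    · subst hli
      exact sA j l k hkl (sC l j hij hE)
    · exact sA i l k hkl (sB i j l hli hE)
  refine sl_span63 all ?_ hx
  intro k l hkl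
  have h1 := hi _ (tr_off63 hkl) _ (all l k hkl.symm)
  rw [single_mul_single_same, single_mul_single_same, mul_one] at h1
  exact h1

end GH
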